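import Mathlib

/-!
# MP_e9f532_co: distinct pairwise intersections in an antichain

`f(n) ≥ 2^n - 2^(n/2 + O(log² n))`; together with the known `f(n) < 2^n - 2^(n/2)` this determines
the deficiency `2^n - f(n)` up to a factor `2^(O(log² n))`.
-/

namespace Pool.Agent.Results.MP_e9f532_co.Deficiency

open Finset

/-- `𝒜` is an antichain: no member is a proper subset of another member. -/
def Anti {n : ℕ} (𝒜 : Finset (Finset (Fin n))) : Prop := ∀ A ∈ 𝒜, ∀ B ∈ 𝒜, ¬ A ⊂ B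

/-- `I(𝒜)`: the family of intersections of two different members. -/
def inters {n : ℕ} (𝒜 : Finset (Finset (Fin n))) : Finset (Finset (Fin n)) :=
  ((𝒜 ×ˢ 𝒜).filter (fun p => p.1 ≠ p.2)).image (fun p => p.1 ∩ p.2)

/-- `f(n)`: the largest number of distinct pairwise intersections of an antichain in `2^[n]`. -/
noncomputable def f (n : ℕ) : ℕ :=
  sSup {k | ∃ 𝒜 : Finset (Finset (Fin n)), Anti 𝒜 ∧ (inters 𝒜).card = k}

lemma inters_le_f {n : ℕ} {𝒜 : Finset (Finset (Fin n))} (h : Anti 𝒜) :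
    (inters 𝒜).card ≤ f n := by
  refine le_csSup ⟨2 ^ n, ?_⟩ ⟨𝒜, h, rfl⟩
  rintro k ⟨ℬ, -, rfl⟩
  have := card_le_univ (inters ℬ)
  simpa using this

/-! ### Numerical facts -/

lemma num1 : ∀ l : ℕ, 1 ≤ l → 8 * l ^ 2 * (8 * l + 1) ≤ 2 ^ (7 * l) := by
  intro l hl
  induction l, hl using Nat.le_induction with
  | base => norm_num
  | succ l hl ih =>
    have h1 : (l + 1) ^ 2 ≤ 4 * l ^ 2 := by nlinarith
    have h2 : 8 * (l + 1) + 1 ≤ 2 * (8 * l + 1) := by omega
    calc 8 * (l + 1) ^ 2 * (8 * (l + 1) + 1) ≤ 8 * (4 * l ^ 2) * (2 * (8 * l + 1)) :=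
          Nat.mul_le_mul (Nat.mul_le_mul_left _ h1) h2
      _ = 8 * (8 * l ^ 2 * (8 * l + 1)) := by ring
      _ ≤ 8 * 2 ^ (7 * l) := Nat.mul_le_mul_left _ ih
      _ ≤ 128 * 2 ^ (7 * l) := Nat.mul_le_mul_right _ (by norm_num)
      _ = 2 ^ (7 * (l + 1)) := by rw [mul_add, pow_add]; norm_num; ring

/-- The central binomial coefficient is large enough. -/
lemma num2 {l : ℕ} (hl : 1 ≤ l) :
    2 ^ l * (l * (8 * l) + l) ≤ (8 * l).choose (4 * l) := by
  have h1 := Nat.four_pow_le_two_mul_self_mul_centralBinom (4 * l) (by omega)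
  have h2 : Nat.centralBinom (4 * l) = (8 * l).choose (4 * l) := by
    rw [Nat.centralBinom]
    congr 1
    ring
  rw [h2] at h1
  have h3 : (4 : ℕ) ^ (4 * l) = 2 ^ l * 2 ^ (7 * l) := by
    rw [show (4 : ℕ) = 2 ^ 2 by norm_num, ← pow_mul, ← pow_add]
    congr 1
    ring
  have h4 := num1 l hl
  have h5 : 2 * (4 * l) * (2 ^ l * (l * (8 * l) + l)) ≤ 2 * (4 * l) * (8 * l).choose (4 * l) := by
    refine le_trans ?_ h1
    rw [h3]
    calc 2 * (4 * l) * (2 ^ l * (l * (8 * l) + l)) = 2 ^ l * (8 * l ^ 2 * (8 * l + 1)) := by ring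
      _ ≤ 2 ^ l * 2 ^ (7 * l) := Nat.mul_le_mul_left _ h4
  exact Nat.le_of_mul_le_mul_left h5 (by omega)

lemma num3 {m : ℕ} (hm : 1 ≤ m) : 2 * (m - 1) ^ m ≤ m ^ m := by
  obtain ⟨a, rfl⟩ : ∃ a, m = a + 1 := ⟨m - 1, by omega⟩
  rw [Nat.add_sub_cancel]
  have h1 : (a + 1) * a ^ a + a ^ (a + 1) ≤ (a + 1) ^ (a + 1) := by
    have h2 := add_pow a 1 (a + 1)
    rw [h2, Finset.sum_range_succ, Finset.sum_range_succ]
    simp only [one_pow, mul_one, Nat.choose_self, Nat.choose_succ_self_right]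
    have h3 : 0 ≤ ∑ x ∈ range a, a ^ x * (a + 1).choose x := Nat.zero_le _
    push_cast
    nlinarith
  have h4 : a ^ (a + 1) ≤ (a + 1) * a ^ a := by
    rw [pow_succ, mul_comm]
    exact Nat.mul_le_mul_right _ (by omega)
  omega

lemma num4 {m : ℕ} (hm : 1 ≤ m) (j c : ℕ) (hc : m * j ≤ c) : 2 ^ j * (m - 1) ^ c ≤ m ^ c := by
  obtain ⟨d, rfl⟩ : ∃ d, c = m * j + d := ⟨c - m * j, by omega⟩
  rw [pow_add, pow_add, pow_mul, pow_mul]
  calc 2 ^ j * (((m - 1) ^ m) ^ j * (m - 1) ^ d) = (2 * (m - 1) ^ m) ^ j * (m - 1) ^ d := by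
        rw [mul_pow]; ring
    _ ≤ (m ^ m) ^ j * m ^ d :=
        Nat.mul_le_mul (Nat.pow_le_pow_left (num3 hm) _) (Nat.pow_le_pow_left (by omega) _)

/-! ### The labelling -/

/-- Number of functions avoiding the value `t` on the `k`-subsets of `Y`. -/
lemma card_bad {n m : ℕ} (Y : Finset (Fin n)) (k : ℕ) (t : Fin m) :
    (univ.filter (fun lam : Finset (Fin n) → Fin m =>
      ∀ Z ∈ powersetCard k Y, lam Z ≠ t)).card
      = (m - 1) ^ (Y.card.choose k) * m ^ (2 ^ n - Y.card.choose k) := by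
  classical
  have h : univ.filter (fun lam : Finset (Fin n) → Fin m => ∀ Z ∈ powersetCard k Y, lam Z ≠ t)
      = Fintype.piFinset (fun Z => if Z ∈ powersetCard k Y then univ.erase t
          else (univ : Finset (Fin m))) := by
    ext lam
    simp only [mem_filter, mem_univ, true_and, Fintype.mem_piFinset]
    refine forall_congr' fun Z => ?_
    by_cases hZ : Z ∈ powersetCard k Y
    · rw [if_pos hZ, mem_erase]
      exact ⟨fun h => ⟨h hZ, mem_univ _⟩, fun h _ => h.1⟩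
    · rw [if_neg hZ]
      exact ⟨fun _ => mem_univ _, fun _ h => absurd h hZ⟩
  rw [h, Fintype.card_piFinset]
  have h2 : ∀ Z : Finset (Fin n), (if Z ∈ powersetCard k Y then univ.erase t
          else (univ : Finset (Fin m))).card = if Z ∈ powersetCard k Y then m - 1 else m := by
    intro Z
    split_ifs
    · rw [card_erase_of_mem (mem_univ _), card_univ, Fintype.card_fin]
    · rw [card_univ, Fintype.card_fin]
  simp only [h2]
  rw [prod_ite, prod_const, prod_const]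
  have h3 : univ.filter (fun Z : Finset (Fin n) => Z ∈ powersetCard k Y) = powersetCard k Y := by
    ext Z; simp
  have h4 : univ.filter (fun Z : Finset (Fin n) => Z ∉ powersetCard k Y)
      = univ \ powersetCard k Y := by
    ext Z; simp
  rw [h3, h4, card_sdiff_of_subset (subset_univ _), card_powersetCard, card_univ,
    Fintype.card_finset, Fintype.card_fin]

/-- A labelling of all sets such that every set `Y` with at least `8l` elements has, for every
label `t ≤ n`, a `4l`-subset with label `t`. -/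
lemma labelling (n l : ℕ) (hl : 1 ≤ l) (hn : n < 2 ^ l) :
    ∃ lam : Finset (Fin n) → ℕ, ∀ Y : Finset (Fin n), 8 * l ≤ Y.card → ∀ t ≤ n,
      ∃ Z ⊆ Y, Z.card = 4 * l ∧ lam Z = t := by
  classical
  set m := 2 ^ l with hm
  have hm1 : 1 ≤ m := Nat.one_le_two_pow
  set c := (8 * l).choose (4 * l) with hc
  by_contra hcon
  push Not at hcon
  -- every labelling with values in `Fin m` is bad
  have hbad : ∀ lam : Finset (Fin n) → Fin m, ∃ Y ∈ powersetCard (8 * l) (univ : Finset (Fin n)),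
      ∃ t : Fin m, ∀ Z ∈ powersetCard (4 * l) Y, lam Z ≠ t := by
    intro lam
    obtain ⟨Y, hY, t, ht, hZ⟩ := hcon (fun Z => (lam Z).val)
    obtain ⟨Y', hY', hc'⟩ := exists_subset_card_eq hY
    refine ⟨Y', by rw [mem_powersetCard_univ]; exact hc', ⟨t, by omega⟩, ?_⟩
    intro Z hZ' heq
    rw [mem_powersetCard] at hZ'
    apply hZ Z (hZ'.1.trans hY') hZ'.2
    rw [heq]
  have hcover : (univ : Finset (Finset (Fin n) → Fin m)) ⊆
      ((powersetCard (8 * l) (univ : Finset (Fin n))) ×ˢ (univ : Finset (Fin m))).biUnion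
        (fun p => univ.filter (fun lam : Finset (Fin n) → Fin m =>
          ∀ Z ∈ powersetCard (4 * l) p.1, lam Z ≠ p.2)) := by
    intro lam _
    obtain ⟨Y, hY, t, h⟩ := hbad lam
    rw [mem_biUnion]
    exact ⟨(Y, t), mem_product.2 ⟨hY, mem_univ _⟩, mem_filter.2 ⟨mem_univ _, h⟩⟩
  have h1 := (card_le_card hcover).trans card_biUnion_le
  have h2 : ∀ p ∈ (powersetCard (8 * l) (univ : Finset (Fin n))) ×ˢ (univ : Finset (Fin m)),
      (univ.filter (fun lam : Finset (Fin n) → Fin m =>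
          ∀ Z ∈ powersetCard (4 * l) p.1, lam Z ≠ p.2)).card
        = (m - 1) ^ c * m ^ (2 ^ n - c) := by
    intro p hp
    have hp1 := (mem_powersetCard_univ.1 (mem_product.1 hp).1)
    rw [card_bad, hp1]
  rw [sum_congr rfl h2, sum_const, card_product, card_powersetCard, card_univ, card_univ,
    card_univ, Fintype.card_fin, Fintype.card_fin, Fintype.card_fun, Fintype.card_finset,
    Fintype.card_fin, Fintype.card_fin, smul_eq_mul] at h1
  -- if there is no set of size `8l` we are done at once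
  by_cases hcn : n < 8 * l
  · rw [Nat.choose_eq_zero_of_lt hcn, zero_mul, zero_mul] at h1
    have : 0 < m ^ 2 ^ n := by positivity
    omega
  push Not at hcn
  have hcM : c ≤ 2 ^ n := by
    calc c ≤ n.choose (4 * l) := Nat.choose_le_choose _ hcn
      _ ≤ 2 ^ n := Nat.choose_le_two_pow n (4 * l)
  have h3 : m ^ 2 ^ n = m ^ c * m ^ (2 ^ n - c) := by
    rw [← pow_add]; congr 1; omega
  rw [h3] at h1
  have h4 : m ^ c * m ^ (2 ^ n - c) ≤ (n.choose (8 * l) * m * (m - 1) ^ c) * m ^ (2 ^ n - c) := by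
    refine h1.trans (le_of_eq ?_)
    ring
  have h5 := Nat.le_of_mul_le_mul_right h4 (by positivity)
  -- numerical contradiction
  have h6 : n.choose (8 * l) < 2 ^ (l * (8 * l)) := by
    calc n.choose (8 * l) ≤ n ^ (8 * l) := Nat.choose_le_pow n (8 * l)
      _ < (2 ^ l) ^ (8 * l) := Nat.pow_lt_pow_left hn (by omega)
      _ = 2 ^ (l * (8 * l)) := by rw [← pow_mul]
  have h7 : 2 ^ (l * (8 * l) + l) * (m - 1) ^ c ≤ m ^ c := by
    apply num4 hm1
    exact num2 hl
  have h8 : n.choose (8 * l) * m * (m - 1) ^ c < 2 ^ (l * (8 * l) + l) * (m - 1) ^ c := by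
    apply Nat.mul_lt_mul_of_pos_right
    · rw [pow_add, ← hm]
      exact Nat.mul_lt_mul_of_pos_right h6 (by omega)
    · have : 2 ≤ m := by
        calc 2 = 2 ^ 1 := by norm_num
          _ ≤ 2 ^ l := Nat.pow_le_pow_right (by norm_num) hl
      have : 0 < m - 1 := by omega
      positivity
  omega

/-! ### The antichain -/

section construction

variable {n : ℕ} (X : Finset (Fin n)) (k : ℕ) (lam : Finset (Fin n) → ℕ)

/-- All sets `S ∪ (Xᶜ ∖ Z)` with `S ⊆ X` of size less than `|X| - k`, and `Z ⊆ Xᶜ` a `k`-set with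
label `|S|`. -/
def half : Finset (Finset (Fin n)) :=
  ((X.powerset ×ˢ powersetCard k Xᶜ).filter
    (fun p => p.1.card + k < X.card ∧ lam p.2 = p.1.card)).image (fun p => p.1 ∪ (Xᶜ \ p.2))

lemma mem_half {A : Finset (Fin n)} : A ∈ half X k lam ↔
    ∃ S Z : Finset (Fin n), S ⊆ X ∧ Z ⊆ Xᶜ ∧ Z.card = k ∧ S.card + k < X.card ∧
      lam Z = S.card ∧ A = S ∪ (Xᶜ \ Z) := by
  unfold half
  rw [mem_image]
  constructor
  · rintro ⟨⟨S, Z⟩, h, rfl⟩
    rw [mem_filter, mem_product, mem_powerset, mem_powersetCard] at h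
    exact ⟨S, Z, h.1.1, h.1.2.1, h.1.2.2, h.2.1, h.2.2, rfl⟩
  · rintro ⟨S, Z, h1, h2, h3, h4, h5, rfl⟩
    refine ⟨(S, Z), ?_, rfl⟩
    rw [mem_filter, mem_product, mem_powerset, mem_powersetCard]
    exact ⟨⟨h1, h2, h3⟩, h4, h5⟩

lemma half_anti : ∀ A ∈ half X k lam, ∀ B ∈ half X k lam, ¬ A ⊂ B := by
  intro A hA B hB hAB
  obtain ⟨S, Z, h1, h2, h3, h4, h5, rfl⟩ := (mem_half X k lam).1 hA
  obtain ⟨S', Z', h1', h2', h3', h4', h5', rfl⟩ := (mem_half X k lam).1 hB
  have hZ : Z' ⊆ Z := by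
    intro z hz
    by_contra hcon
    have hzX := h2' hz
    have : z ∈ S ∪ (Xᶜ \ Z) := mem_union_right _ (mem_sdiff.2 ⟨hzX, hcon⟩)
    rcases mem_union.1 (hAB.1 this) with h | h
    · exact (mem_compl.1 hzX) (h1' h)
    · exact (mem_sdiff.1 h).2 hz
  have hZeq : Z' = Z := eq_of_subset_of_card_le hZ (by omega)
  have hS : S ⊆ S' := by
    intro z hz
    rcases mem_union.1 (hAB.1 (mem_union_left _ hz)) with h | h
    · exact h
    · exact absurd (h1 hz) (mem_compl.1 (mem_sdiff.1 h).1)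
  have hSeq : S = S' := eq_of_subset_of_card_le hS (by rw [← h5', ← h5, hZeq])
  apply hAB.2
  rw [hSeq, hZeq]

lemma half_cross (A B : Finset (Fin n)) (hA : A ∈ half X k lam) (hB : B ∈ half Xᶜ k lam) :
    ¬ A ⊆ B := by
  intro hAB
  obtain ⟨S, Z, h1, h2, h3, h4, h5, rfl⟩ := (mem_half X k lam).1 hA
  obtain ⟨S', Z', h1', h2', h3', h4', h5', rfl⟩ := (mem_half Xᶜ k lam).1 hB
  have : Xᶜ \ Z ⊆ S' := by
    intro z hz
    rcases mem_union.1 (hAB (mem_union_right _ hz)) with h | h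
    · exact h
    · rw [compl_compl] at h
      exact absurd (mem_sdiff.1 h).1 (mem_compl.1 (mem_sdiff.1 hz).1)
  have hc := card_le_card this
  have := le_card_sdiff Z Xᶜ
  omega

lemma whole_anti : Anti (half X k lam ∪ half Xᶜ k lam) := by
  intro A hA B hB hAB
  rcases mem_union.1 hA with hA | hA <;> rcases mem_union.1 hB with hB | hB
  · exact half_anti X k lam A hA B hB hAB
  · exact half_cross X k lam A B hA hB hAB.1
  · refine half_cross Xᶜ k lam A B hA ?_ hAB.1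
    rw [compl_compl]; exact hB
  · exact half_anti Xᶜ k lam A hA B hB hAB

/-- Every set `B` with at least `8l` missing points on both sides is an intersection. -/
lemma covered {l : ℕ} (hl : 1 ≤ l) (hlam : ∀ Y : Finset (Fin n), 8 * l ≤ Y.card → ∀ t ≤ n,
      ∃ Z ⊆ Y, Z.card = 4 * l ∧ lam Z = t) (B : Finset (Fin n))
    (hB1 : 8 * l ≤ (X \ B).card) (hB2 : 8 * l ≤ (Xᶜ \ B).card) :
    B ∈ inters (half X (4 * l) lam ∪ half Xᶜ (4 * l) lam) := by
  have b1 : (B ∩ X).card ≤ n := by simpa using card_le_univ (B ∩ X)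
  have b2 : (B ∩ Xᶜ).card ≤ n := by simpa using card_le_univ (B ∩ Xᶜ)
  obtain ⟨Z, hZ, hZc, hZl⟩ := hlam _ hB2 _ b1
  obtain ⟨W, hW, hWc, hWl⟩ := hlam _ hB1 _ b2
  have c1 := card_inter_add_card_sdiff X B
  have c2 := card_inter_add_card_sdiff Xᶜ B
  have m1 : (B ∩ X) ∪ (Xᶜ \ Z) ∈ half X (4 * l) lam := by
    rw [mem_half]
    refine ⟨B ∩ X, Z, inter_subset_right, hZ.trans sdiff_subset, hZc, ?_, hZl, rfl⟩
    rw [inter_comm]
    omega
  have m2 : (B ∩ Xᶜ) ∪ (Xᶜᶜ \ W) ∈ half Xᶜ (4 * l) lam := by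
    rw [mem_half]
    refine ⟨B ∩ Xᶜ, W, inter_subset_right, ?_, hWc, ?_, hWl, rfl⟩
    · rw [compl_compl]; exact hW.trans sdiff_subset
    · rw [inter_comm]
      omega
  unfold inters
  rw [mem_image]
  refine ⟨((B ∩ X) ∪ (Xᶜ \ Z), (B ∩ Xᶜ) ∪ (Xᶜᶜ \ W)), ?_, ?_⟩
  · rw [mem_filter, mem_product]
    refine ⟨⟨mem_union_left _ m1, mem_union_right _ m2⟩, ?_⟩
    intro h
    simp only at h
    exact half_cross X (4 * l) lam _ _ m1 m2 (by rw [h])
  · ext z
    have e1 := @hZ z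
    have e2 := @hW z
    simp only [mem_inter, mem_union, mem_sdiff, mem_compl] at e1 e2 ⊢
    tauto

end construction

/-! ### Counting the exceptional sets -/

lemma few_small (n K : ℕ) (hn : 1 ≤ n) :
    (univ.filter (fun S : Finset (Fin n) => S.card < K)).card ≤ (n + 1) ^ K := by
  classical
  induction K with
  | zero => simp
  | succ K ih =>
    have h1 : univ.filter (fun S : Finset (Fin n) => S.card < K + 1)
        = univ.filter (fun S : Finset (Fin n) => S.card < K) ∪ powersetCard K univ := by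
      ext S
      simp only [mem_filter, mem_univ, true_and, mem_union, mem_powersetCard_univ]
      omega
    rw [h1]
    refine (card_union_le _ _).trans ?_
    rw [card_powersetCard, card_univ, Fintype.card_fin]
    have h2 : n.choose K ≤ n * (n + 1) ^ K := by
      calc n.choose K ≤ n ^ K := Nat.choose_le_pow n K
        _ ≤ (n + 1) ^ K := Nat.pow_le_pow_left (by omega) _
        _ ≤ n * (n + 1) ^ K := Nat.le_mul_of_pos_left _ hn
    calc _ ≤ (n + 1) ^ K + n * (n + 1) ^ K := Nat.add_le_add ih h2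
      _ = (n + 1) ^ (K + 1) := by ring

lemma exceptional {n : ℕ} (hn : 1 ≤ n) (X : Finset (Fin n)) (K : ℕ) :
    (univ.filter (fun B : Finset (Fin n) => (X \ B).card < K)).card
      ≤ (n + 1) ^ K * 2 ^ (Xᶜ.card) := by
  classical
  rw [← card_powerset]
  refine le_trans ?_ (Nat.mul_le_mul_right _ (few_small n K hn))
  rw [← card_product]
  refine card_le_card_of_injOn (fun B => (X \ B, B ∩ Xᶜ)) ?_ ?_
  · intro B hB
    simp only [coe_filter, mem_univ, true_and, Set.mem_ofPred_eq] at hB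
    simp only [coe_product, Set.mem_prod, coe_filter, mem_univ, true_and, Set.mem_ofPred_eq,
      mem_coe, mem_powerset]
    exact ⟨hB, inter_subset_right⟩
  · intro B _ B' _ h
    have h1 : X \ B = X \ B' := congrArg Prod.fst h
    have h2 : B ∩ Xᶜ = B' ∩ Xᶜ := congrArg Prod.snd h
    ext z
    have e1 := congrArg (fun S => z ∈ S) h1
    have e2 := congrArg (fun S => z ∈ S) h2
    simp only [mem_sdiff, mem_inter, mem_compl, eq_iff_iff] at e1 e2
    tauto

/-- The lower bound with explicit constants. -/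
theorem lower (n : ℕ) (hn : 1 ≤ n) :
    2 ^ n ≤ f n + 2 ^ ((n + 1) / 2 + 1 + 8 * (Nat.clog 2 (n + 1)) ^ 2) := by
  classical
  set l := Nat.clog 2 (n + 1) with hl
  have hnl : n + 1 ≤ 2 ^ l := Nat.le_pow_clog (by norm_num) _
  have hl1 : 1 ≤ l := by
    by_contra hcon
    have : l = 0 := by omega
    rw [this] at hnl
    omega
  obtain ⟨lam, hlam⟩ := labelling n l hl1 (by omega)
  obtain ⟨X, -, hX⟩ := exists_subset_card_eq
    (show n / 2 ≤ (univ : Finset (Fin n)).card by rw [card_univ, Fintype.card_fin]; omega)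
  have hXc : Xᶜ.card = n - n / 2 := by rw [card_compl, Fintype.card_fin, hX]
  have h1 := inters_le_f (whole_anti X (4 * l) lam)
  have h2 : (univ : Finset (Finset (Fin n))) ⊆ inters (half X (4 * l) lam ∪ half Xᶜ (4 * l) lam)
      ∪ (univ.filter (fun B : Finset (Fin n) => (X \ B).card < 8 * l)
      ∪ univ.filter (fun B : Finset (Fin n) => (Xᶜ \ B).card < 8 * l)) := by
    intro B _
    by_cases hB1 : (X \ B).card < 8 * l
    · exact mem_union_right _ (mem_union_left _ (mem_filter.2 ⟨mem_univ _, hB1⟩))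
    by_cases hB2 : (Xᶜ \ B).card < 8 * l
    · exact mem_union_right _ (mem_union_right _ (mem_filter.2 ⟨mem_univ _, hB2⟩))
    push Not at hB1 hB2
    exact mem_union_left _ (covered X lam hl1 hlam B hB1 hB2)
  have h3 := (card_le_card h2).trans ((card_union_le _ _).trans
    (Nat.add_le_add_left (card_union_le _ _) _))
  rw [card_univ, Fintype.card_finset, Fintype.card_fin] at h3
  have h4 := exceptional hn X (8 * l)
  have h5 := exceptional hn Xᶜ (8 * l)
  rw [compl_compl, hX] at h5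
  rw [hXc] at h4
  have h6 : (n + 1) ^ (8 * l) ≤ 2 ^ (8 * l ^ 2) := by
    calc (n + 1) ^ (8 * l) ≤ (2 ^ l) ^ (8 * l) := Nat.pow_le_pow_left hnl _
      _ = 2 ^ (8 * l ^ 2) := by rw [← pow_mul]; congr 1; ring
  have h7 : (n + 1) ^ (8 * l) * 2 ^ (n - n / 2) ≤ 2 ^ (8 * l ^ 2) * 2 ^ ((n + 1) / 2) :=
    Nat.mul_le_mul h6 (Nat.pow_le_pow_right (by norm_num) (by omega))
  have h8 : (n + 1) ^ (8 * l) * 2 ^ (n / 2) ≤ 2 ^ (8 * l ^ 2) * 2 ^ ((n + 1) / 2) :=
    Nat.mul_le_mul h6 (Nat.pow_le_pow_right (by norm_num) (by omega))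
  have h9 : 2 ^ ((n + 1) / 2 + 1 + 8 * l ^ 2)
      = 2 ^ (8 * l ^ 2) * 2 ^ ((n + 1) / 2) + 2 ^ (8 * l ^ 2) * 2 ^ ((n + 1) / 2) := by
    rw [pow_add, pow_add]; ring
  rw [h9]
  omega

/-- **Main theorem.** There is a constant `C` with `f(n) ≥ 2^n - 2^(n/2 + C (log n)^2)` for all
`n ≥ 2`. Explicitly, `2^n - f(n) ≤ 2^(⌊(n+1)/2⌋ + 1 + 8 ⌈log₂(n+1)⌉²)` for all `n ≥ 1`. -/
theorem result :
    (∃ C : ℝ, ∀ n : ℕ, 2 ≤ n →
      (2 : ℝ) ^ (n : ℝ) - (2 : ℝ) ^ ((n : ℝ) / 2 + C * (Real.log n) ^ 2) ≤ (f n : ℝ)) ∧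
    (∀ n : ℕ, 1 ≤ n →
      2 ^ n ≤ f n + 2 ^ ((n + 1) / 2 + 1 + 8 * (Nat.clog 2 (n + 1)) ^ 2)) := by
  refine ⟨⟨74 / (Real.log 2) ^ 2, fun n hn => ?_⟩, lower⟩
  have hlow := lower n (by omega)
  set l := Nat.clog 2 (n + 1) with hl
  have hl1 : 1 ≤ l := by
    by_contra hcon
    have h0 : l = 0 := by omega
    have hnl : n + 1 ≤ 2 ^ l := Nat.le_pow_clog (by norm_num) _
    rw [h0] at hnl
    omega
  have hlog2 : 0 < Real.log 2 := Real.log_pos (by norm_num)
  have hnR : (2 : ℝ) ≤ (n : ℝ) := by exact_mod_cast hn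
  have hlogn : Real.log 2 ≤ Real.log n := Real.log_le_log (by norm_num) hnR
  -- `l ≤ 3 log n / log 2`
  have hlt : 2 ^ (l - 1) < n + 1 := by
    have := Nat.pow_pred_clog_lt_self (b := 2) (by norm_num) (show 1 < n + 1 by omega)
    simpa [hl] using this
  have hle2 : (2 : ℝ) ^ (l - 1) ≤ (n : ℝ) ^ 2 := by
    have h1 : 2 ^ (l - 1) ≤ n ^ 2 := by nlinarith
    exact_mod_cast h1
  have h1 : ((l : ℝ) - 1) * Real.log 2 ≤ 2 * Real.log n := by
    have := Real.log_le_log (by positivity) hle2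
    rw [Real.log_pow, Real.log_pow, Nat.cast_sub hl1] at this
    simpa using this
  set q : ℝ := Real.log n / Real.log 2 with hq
  have hq1 : 1 ≤ q := by rw [hq, le_div_iff₀ hlog2]; linarith
  have hlq : (l : ℝ) ≤ 3 * q := by
    have h2 : (l : ℝ) - 1 ≤ 2 * q := by
      rw [hq]
      rw [← mul_div_assoc, le_div_iff₀ hlog2]
      exact h1
    linarith
  have hexp : (((n + 1) / 2 + 1 + 8 * l ^ 2 : ℕ) : ℝ)
      ≤ (n : ℝ) / 2 + 74 / (Real.log 2) ^ 2 * (Real.log n) ^ 2 := by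
    have h2 : (((n + 1) / 2 : ℕ) : ℝ) ≤ ((n : ℝ) + 1) / 2 := by
      have := Nat.cast_div_le (α := ℝ) (m := n + 1) (n := 2)
      simpa using this
    have h3 : 74 / (Real.log 2) ^ 2 * (Real.log n) ^ 2 = 74 * q ^ 2 := by
      rw [hq, div_pow]; ring
    have h4 : (l : ℝ) ^ 2 ≤ (3 * q) ^ 2 := pow_le_pow_left₀ (by positivity) hlq 2
    push_cast
    rw [h3]
    nlinarith
  have h5 : (2 : ℝ) ^ n ≤ (f n : ℝ) + (2 : ℝ) ^ ((n + 1) / 2 + 1 + 8 * l ^ 2) := by
    exact_mod_cast hlow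
  have h6 : (2 : ℝ) ^ ((n + 1) / 2 + 1 + 8 * l ^ 2)
      ≤ (2 : ℝ) ^ ((n : ℝ) / 2 + 74 / (Real.log 2) ^ 2 * (Real.log n) ^ 2) := by
    rw [← Real.rpow_natCast]
    exact Real.rpow_le_rpow_of_exponent_le (by norm_num) hexp
  rw [Real.rpow_natCast]
  linarith

end Pool.Agent.Results.MP_e9f532_co.Deficiency
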